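import Pool.Agent.H930Z.Dir.Spec
import Pool.Agent.Helper88.Weyl.Iso

open MeasureTheory Set Filter Topology Real

noncomputable section

namespace H930Z.Dir

namespace H69

open Pool.Agent.Helper88.Weyl

lemma om_two : om 2 = π := by
  unfold om
  have : ((2 : ℕ) : ℝ) / 2 + 1 = 1 + 1 := by norm_num
  rw [this, Real.Gamma_add_one (by norm_num), Real.Gamma_one, Real.sq_sqrt Real.pi_pos.le]
  simp

lemma loc {Ω : Set (ℝ × ℝ)} {F : ℝ × ℝ → ℝ} (hΩ : IsOpen Ω)
    (hfr : ∀ x ∈ frontier Ω, F =ᶠ[𝓝 x] fun _ => 0) (x : ℝ × ℝ) :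
    (x ∈ Ω ∧ indicator Ω F =ᶠ[𝓝 x] F) ∨ (x ∉ Ω ∧ indicator Ω F =ᶠ[𝓝 x] fun _ => 0) := by
  by_cases hx : x ∈ Ω
  · refine Or.inl ⟨hx, ?_⟩
    filter_upwards [hΩ.mem_nhds hx] with y hy
    exact indicator_of_mem hy F
  · refine Or.inr ⟨hx, ?_⟩
    by_cases hc : x ∈ closure Ω
    · have : x ∈ frontier Ω := by rw [hΩ.frontier_eq]; exact ⟨hc, hx⟩
      filter_upwards [hfr x this] with y hy
      by_cases h : y ∈ Ω
      · rw [indicator_of_mem h, hy]
      · exact indicator_of_notMem h F
    · filter_upwards [isClosed_closure.isOpen_compl.mem_nhds hc] with y hy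
      exact indicator_of_notMem (fun h => hy (subset_closure h)) F

lemma norm_comp_le (L : ℝ × ℝ →L[ℝ] ℝ) :
    ‖L.comp (Complex.equivRealProdCLM : ℂ →L[ℝ] ℝ × ℝ)‖ ≤ √(L (1, 0) ^ 2 + L (0, 1) ^ 2) := by
  refine ContinuousLinearMap.opNorm_le_bound _ (Real.sqrt_nonneg _) fun z => ?_
  have e : (L.comp (Complex.equivRealProdCLM : ℂ →L[ℝ] ℝ × ℝ)) z =
      z.re * L (1, 0) + z.im * L (0, 1) := by
    have : (Complex.equivRealProdCLM z : ℝ × ℝ) = z.re • ((1, 0) : ℝ × ℝ) + z.im • (0, 1) := by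
      ext <;> simp
    change L (Complex.equivRealProdCLM z) = _
    rw [this, map_add, map_smul, map_smul]; rfl
  rw [e, Real.norm_eq_abs, Complex.norm_eq_sqrt_sq_add_sq, ← Real.sqrt_mul (by positivity)]
  refine Real.abs_le_sqrt ?_
  nlinarith [sq_nonneg (z.re * L (0, 1) - z.im * L (1, 0))]

lemma int_comp (H : ℝ × ℝ → ℝ) :
    ∫ z : ℂ, H (Complex.equivRealProdCLM z) = ∫ x, H x :=
  Complex.volume_preserving_equiv_real_prod.integral_comp' H

end H69

open H69 Pool.Agent.Helper88.Weyl in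
theorem iso : S_iso := by
  intro Ω F hΩ hb hF hfr h0 h1 S S' hS hS' hSΩ hS'Ω hS1 hS'1
  set G : ℝ × ℝ → ℝ := indicator Ω F with hG
  have hK : IsCompact (closure Ω) := hb.isCompact_closure
  have Gd : ContDiff ℝ 1 G := contDiff_iff_contDiffAt.2 fun x => by
    rcases loc hΩ hfr x with ⟨-, h⟩ | ⟨-, h⟩
    · exact hF.contDiffAt.congr_of_eventuallyEq h
    · exact contDiffAt_const.congr_of_eventuallyEq h
  have Gc : HasCompactSupport G :=
    HasCompactSupport.intro hK fun x hx => indicator_of_notMem (fun h => hx (subset_closure h)) F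
  have G0 : ∀ x, 0 ≤ G x := fun x => indicator_nonneg (fun y _ => h0 y) x
  have grc : Continuous (gr F) := by
    have := hF.continuous_fderiv (by simp)
    unfold gr d1 d2
    fun_prop
  have gri : IntegrableOn (gr F) Ω := (grc.continuousOn.integrableOn_compact hK).mono_set
    subset_closure
  have gr0 : 0 ≤ ∫ x in Ω, gr F x := integral_nonneg fun x => Real.sqrt_nonneg _
  have fin : ∀ T : Set (ℝ × ℝ), T ⊆ Ω → volume T ≠ ⊤ := fun T hT =>
    ((measure_mono (hT.trans subset_closure)).trans_lt hK.measure_lt_top).ne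
  let e := Complex.equivRealProdCLM
  have key := star 2 (by norm_num) ℂ Complex.finrank_real_complex (fun z => G (e z))
    (Gd.comp e.contDiff) (Gc.comp_homeomorph e.toHomeomorph) (fun z => G0 _)
  rw [om_two, int_comp G, int_comp (fun x => pw 2 (G x))] at key
  have k1 : ∫ z : ℂ, ‖fderiv ℝ (fun z => G (e z)) z‖ ≤ ∫ x in Ω, gr F x := by
    rw [← integral_indicator hΩ.measurableSet, ← int_comp]
    refine integral_mono_of_nonneg (Eventually.of_forall fun z => norm_nonneg _) ?_
      (Eventually.of_forall fun z => ?_)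
    · exact (Complex.volume_preserving_equiv_real_prod.integrable_comp_emb
        Complex.measurableEquivRealProd.measurableEmbedding).2
        ((integrable_indicator_iff hΩ.measurableSet).2 gri)
    · have hd : fderiv ℝ (fun z => G (e z)) z =
          (fderiv ℝ G (e z)).comp (e : ℂ →L[ℝ] ℝ × ℝ) :=
        e.comp_right_fderiv (f := G) (x := z)
      change ‖fderiv ℝ (fun z => G (e z)) z‖ ≤ indicator Ω (gr F) (e z)
      rw [hd]
      rcases loc hΩ hfr (e z) with ⟨hx, h⟩ | ⟨hx, h⟩
      · rw [indicator_of_mem hx, h.fderiv_eq]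
        exact norm_comp_le _
      · rw [indicator_of_notMem hx, h.fderiv_eq]
        simp
  have Gi : Integrable G := Gd.continuous.integrable_of_hasCompactSupport Gc
  have Pi : Integrable fun x => pw 2 (G x) :=
    ((pw_cont 2).comp Gd.continuous).integrable_of_hasCompactSupport (Gc.comp_left (pw_zero 2))
  have indi : ∀ T : Set (ℝ × ℝ), MeasurableSet T → T ⊆ Ω →
      Integrable (indicator T fun _ => (1 : ℝ)) ∧
        ∫ x, indicator T (fun _ => (1 : ℝ)) x = volume.real T := fun T hT hTΩ =>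
    ⟨(integrable_indicator_iff hT).2 (integrableOn_const (fin T hTΩ)), by
      rw [integral_indicator hT]; simp⟩
  have GS : ∀ x ∈ S, G x = 1 := fun x hx => by rw [hG, indicator_of_mem (hSΩ hx), hS1 x hx]
  have k2 : volume.real S ≤ ∫ x, pw 2 (G x) := by
    rw [← (indi S hS hSΩ).2]
    refine integral_mono (indi S hS hSΩ).1 Pi fun x => ?_
    by_cases hx : x ∈ S
    · simp [indicator_of_mem hx, GS x hx, pw]
    · rw [indicator_of_notMem hx]; exact pw_nonneg 2 (G0 x)
  have k3 : volume.real S ≤ ∫ x, G x := by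
    rw [← (indi S hS hSΩ).2]
    refine integral_mono (indi S hS hSΩ).1 Gi fun x => ?_
    by_cases hx : x ∈ S
    · simp [indicator_of_mem hx, GS x hx]
    · rw [indicator_of_notMem hx]; exact G0 x
  have k4 : ∫ x, G x ≤ volume.real S' := by
    rw [← (indi S' hS' hS'Ω).2]
    refine integral_mono Gi (indi S' hS' hS'Ω).1 fun x => ?_
    by_cases hx : x ∈ S'
    · rw [indicator_of_mem hx]
      by_cases hx' : x ∈ Ω
      · rw [hG, indicator_of_mem hx']; exact h1 x
      · rw [hG, indicator_of_notMem hx']; exact zero_le_one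
    · rw [indicator_of_notMem hx]
      by_cases hx' : x ∈ Ω
      · rw [hG, indicator_of_mem hx']
        by_contra c
        exact hx (hS'1 x hx' (fun h => c h.le))
      · rw [hG, indicator_of_notMem hx']
  have s0 : 0 ≤ volume.real S := measureReal_nonneg
  rcases s0.eq_or_lt with s0 | s0
  · rw [← s0]; simpa using gr0
  set a := ∫ x, G x
  have a0 : 0 < a := by linarith
  have e1 : (π / a) ^ (((2 : ℕ) : ℝ)⁻¹) = √π / √a := by
    rw [← Real.sqrt_div Real.pi_pos.le, Real.sqrt_eq_rpow]; norm_num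
  rw [e1] at key
  have e2 : √π / √(volume.real S') ≤ √π / √a :=
    div_le_div_of_nonneg_left (Real.sqrt_nonneg _) (Real.sqrt_pos.2 a0) (Real.sqrt_le_sqrt k4)
  have e3 : 0 ≤ √π / √a := by positivity
  calc 2 * √π * volume.real S / √(volume.real S')
      = 2 * (√π / √(volume.real S')) * volume.real S := by ring
    _ ≤ 2 * (√π / √a) * volume.real S := by gcongr
    _ ≤ 2 * (√π / √a) * ∫ x, pw 2 (G x) := by gcongr
    _ ≤ _ := by
      refine le_trans ?_ k1
      simpa using key

end H930Z.Dir
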